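import Pool.Agent.K4H40.NS.Spec

/-!
Piece [DIM]: the Hilbert function of a polynomial ring modulo independent linear forms.
-/

set_option autoImplicit false

namespace Pool.Agent.K4H40.NS

open MvPolynomial Module

noncomputable section

namespace DimAux

/-- monomials of degree `d` -/
def mons (σ : Type) (d : ℕ) : Set (σ →₀ ℕ) := {m | m.degree = d}

theorem mons_finite (σ : Type) [Finite σ] (d : ℕ) : (mons σ d).Finite := by
  classical
  cases nonempty_fintype σ
  refine Set.Finite.subset ((Finset.univ : Finset σ).finsuppAntidiag d).finite_toSet ?_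
  intro m hm
  rw [Finset.mem_coe, Finset.mem_finsuppAntidiag]
  refine ⟨?_, Finset.subset_univ _⟩
  have h : m.degree = d := hm
  rw [← h, Finsupp.degree_eq_sum]

theorem mons_ncard (σ : Type) [Fintype σ] (d : ℕ) :
    (mons σ (d + 1)).ncard = (Fintype.card σ + d).choose (d + 1) := by
  classical
  have h : mons σ (d + 1) = ((Finset.univ : Finset σ).finsuppAntidiag (d + 1) : Set (σ →₀ ℕ)) := by
    ext m
    rw [Finset.mem_coe, Finset.mem_finsuppAntidiag]
    constructor
    · intro hm
      refine ⟨?_, Finset.subset_univ _⟩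
      have h : m.degree = d + 1 := hm
      rw [← h, Finsupp.degree_eq_sum]
    · rintro ⟨h1, -⟩
      show m.degree = d + 1
      rw [← h1, Finsupp.degree_eq_sum]
  rw [h, Set.ncard_coe_finset, Finset.card_finsuppAntidiag_nat_eq_choose, Finset.card_univ]
  congr 1

theorem finrank_restrict {σ : Type} {K : Type} [Field K] (s : Set (σ →₀ ℕ)) (hs : s.Finite) :
    finrank K (restrictSupport K s) = s.ncard := by
  have := hs.fintype
  rw [finrank_eq_card_basis (basisRestrictSupport K s), Set.ncard_eq_toFinset_card']
  simp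

theorem count {α T : Type} [Fintype α] [Fintype T] (hT : 0 < Fintype.card T) (K : Type) [Field K] (d : ℕ) :
    finrank K (homogeneousSubmodule (α ⊕ T) K (d + 1)) =
    finrank K (Submodule.span K {p : MvPolynomial (α ⊕ T) K | ∃ i : α, ∃ f ∈ homogeneousSubmodule (α ⊕ T) K d,
      p = X (Sum.inl i) * f}) + (Fintype.card T + d).choose (d + 1) := by
  classical
  set A : Set ((α ⊕ T) →₀ ℕ) := {m | m.degree = d + 1 ∧ ∃ i : α, m (Sum.inl i) ≠ 0} with hA
  set B : Set ((α ⊕ T) →₀ ℕ) := {m | m.degree = d + 1 ∧ ∀ i : α, m (Sum.inl i) = 0} with hB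
  have hAB : mons (α ⊕ T) (d + 1) = A ∪ B := by
    ext m
    simp only [mons, hA, hB, Set.mem_ofPred_eq, Set.mem_union]
    constructor
    · intro h
      by_cases h2 : ∃ i : α, m (Sum.inl i) ≠ 0
      · exact Or.inl ⟨h, h2⟩
      · exact Or.inr ⟨h, by simpa using h2⟩
    · rintro (h | h)
      · exact h.1
      · exact h.1
  have hdis : Disjoint A B := by
    rw [Set.disjoint_left]
    rintro m ⟨-, i, hi⟩ ⟨-, h2⟩
    exact hi (h2 i)
  have hfin := mons_finite (α ⊕ T) (d + 1)
  have hAf : A.Finite := hfin.subset (by rw [hAB]; exact Set.subset_union_left)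
  have hBf : B.Finite := hfin.subset (by rw [hAB]; exact Set.subset_union_right)
  have h1 : finrank K (homogeneousSubmodule (α ⊕ T) K (d + 1)) = (mons (α ⊕ T) (d + 1)).ncard := by
    rw [← finrank_restrict (K := K) _ hfin]
    rw [homogeneousSubmodule_eq_finsupp_supported]
    rfl
  have h2 : Submodule.span K {p : MvPolynomial (α ⊕ T) K | ∃ i : α, ∃ f ∈ homogeneousSubmodule (α ⊕ T) K d,
      p = X (Sum.inl i) * f} = restrictSupport K A := by
    apply le_antisymm
    · rw [Submodule.span_le]
      rintro p ⟨i, f, hf, rfl⟩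
      rw [SetLike.mem_coe, mem_restrictSupport_iff]
      intro m hm
      have hhom : (X (Sum.inl i) * f : MvPolynomial (α ⊕ T) K).IsHomogeneous (1 + d) :=
        (isHomogeneous_X K (Sum.inl i)).mul hf
      have hm' : coeff m (X (Sum.inl i) * f : MvPolynomial (α ⊕ T) K) ≠ 0 := mem_support_iff.mp hm
      have hdeg := hhom hm'
      refine ⟨?_, i, ?_⟩
      · have h5 : m.degree = 1 + d := by
          rw [Finsupp.degree_eq_weight_one]
          exact hdeg
        show m.degree = d + 1
        omega
      · intro h0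
        apply hm'
        rw [coeff_X_mul']
        rw [if_neg]
        simpa using h0
    · rw [restrictSupport_eq_span, Submodule.span_le]
      rintro p ⟨m, ⟨hm, i, hi⟩, rfl⟩
      apply Submodule.subset_span
      have hle : Finsupp.single (Sum.inl i : α ⊕ T) 1 ≤ m := by
        rw [Finsupp.single_le_iff]
        omega
      refine ⟨i, monomial (m - Finsupp.single (Sum.inl i) 1) 1, ?_, ?_⟩
      · apply isHomogeneous_monomial
        have : m = (m - Finsupp.single (Sum.inl i : α ⊕ T) 1) + Finsupp.single (Sum.inl i) 1 :=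
          (tsub_add_cancel_of_le hle).symm
        have h3 := congrArg Finsupp.degree this
        rw [map_add, hm, Finsupp.degree_single] at h3
        omega
      · rw [X, monomial_mul, one_mul, add_tsub_cancel_of_le hle]
  have h3 : B.ncard = (Fintype.card T + d).choose (d + 1) := by
    rw [← mons_ncard T d]
    have himg : B = (fun m : T →₀ ℕ => m.mapDomain (Sum.inr : T → α ⊕ T)) '' mons T (d + 1) := by
      ext m
      constructor
      · rintro ⟨h, h0⟩
        refine ⟨m.comapDomain Sum.inr Sum.inr_injective.injOn, ?_, ?_⟩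
        · show Finsupp.degree _ = d + 1
          rw [← h, Finsupp.degree_eq_sum, Finsupp.degree_eq_sum, Fintype.sum_sum_type]
          simp [h0]
        · ext x
          rcases x with x | x
          · rw [h0 x]
            rw [Finsupp.mapDomain_of_notMem_range]
            simp
          · simp [Finsupp.mapDomain_apply Sum.inr_injective]
      · rintro ⟨m, hm, rfl⟩
        refine ⟨?_, ?_⟩
        · have h : m.degree = d + 1 := hm
          rw [← h, Finsupp.degree_eq_sum, Finsupp.degree_eq_sum, Fintype.sum_sum_type]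
          have e1 : ∀ i : α, Finsupp.mapDomain (Sum.inr : T → α ⊕ T) m (Sum.inl i) = 0 := by
            intro i
            rw [Finsupp.mapDomain_of_notMem_range]
            simp
          simp [e1, Finsupp.mapDomain_apply Sum.inr_injective]
        · intro i
          show Finsupp.mapDomain (Sum.inr : T → α ⊕ T) m (Sum.inl i) = 0
          rw [Finsupp.mapDomain_of_notMem_range]
          simp
    rw [himg, Set.ncard_image_of_injective]
    exact Finsupp.mapDomain_injective Sum.inr_injective
  rw [h1, h2, finrank_restrict A hAf, hAB, Set.ncard_union_eq hdis hAf hBf, h3]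

/-- the linear form with given coefficients -/
def lf (σ : Type) [Fintype σ] (K : Type) [Field K] : (σ → K) →ₗ[K] MvPolynomial σ K :=
  Fintype.linearCombination K (X : σ → MvPolynomial σ K)

theorem lf_single {σ : Type} [Fintype σ] [DecidableEq σ] {K : Type} [Field K] (j : σ) :
    lf σ K (Pi.single j 1) = X j := by
  rw [lf, Fintype.linearCombination_apply_single, one_smul]

theorem lf_range {σ : Type} [Fintype σ] {K : Type} [Field K] :
    LinearMap.range (lf σ K) = homogeneousSubmodule σ K 1 := by
  rw [homogeneousSubmodule_one_eq_span_X, lf, Fintype.range_linearCombination]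

theorem lf_hom {σ : Type} [Fintype σ] {K : Type} [Field K] (c : σ → K) :
    (lf σ K c).IsHomogeneous 1 := by
  have : lf σ K c ∈ homogeneousSubmodule σ K 1 := by
    rw [← lf_range]
    exact ⟨c, rfl⟩
  exact this

theorem span_map {n : ℕ} {K : Type} [Field K] {α T : Type} [Fintype α] [Fintype T]
    (e : MvPolynomial (α ⊕ T) K ≃ₐ[K] MvPolynomial (Fin n) K)
    (he : ∀ d, ∀ f ∈ homogeneousSubmodule (α ⊕ T) K d, e f ∈ homogeneousSubmodule (Fin n) K d)
    (he' : ∀ d, ∀ f ∈ homogeneousSubmodule (Fin n) K d, e.symm f ∈ homogeneousSubmodule (α ⊕ T) K d)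
    (l : α → MvPolynomial (Fin n) K) (hl : ∀ i, e (X (Sum.inl i)) = l i) (hT : 0 < Fintype.card T) (d : ℕ) :
    finrank K (homogeneousSubmodule (Fin n) K (d + 1)) =
    finrank K (Submodule.span K {p | ∃ i, ∃ f ∈ homogeneousSubmodule (Fin n) K d, p = l i * f}) +
      (Fintype.card T + d).choose (d + 1) := by
  have h1 : homogeneousSubmodule (Fin n) K (d + 1) =
      (homogeneousSubmodule (α ⊕ T) K (d + 1)).map (e.toLinearEquiv : _ →ₗ[K] _) := by
    apply le_antisymm
    · intro f hf
      exact ⟨e.symm f, he' _ f hf, by simp⟩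
    · rintro _ ⟨f, hf, rfl⟩
      exact he _ f hf
  have h2 : Submodule.span K {p | ∃ i, ∃ f ∈ homogeneousSubmodule (Fin n) K d, p = l i * f} =
      (Submodule.span K {p : MvPolynomial (α ⊕ T) K | ∃ i : α, ∃ f ∈ homogeneousSubmodule (α ⊕ T) K d,
        p = X (Sum.inl i) * f}).map (e.toLinearEquiv : _ →ₗ[K] _) := by
    rw [Submodule.map_span]
    congr 1
    ext p
    constructor
    · rintro ⟨i, f, hf, rfl⟩
      refine ⟨X (Sum.inl i) * e.symm f, ⟨i, e.symm f, he' _ f hf, rfl⟩, ?_⟩
      show e (X (Sum.inl i) * e.symm f) = l i * f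
      rw [map_mul, hl, AlgEquiv.apply_symm_apply]
    · rintro ⟨_, ⟨i, f, hf, rfl⟩, rfl⟩
      refine ⟨i, e f, he _ f hf, ?_⟩
      show e (X (Sum.inl i) * f) = l i * e f
      rw [map_mul, hl]
  rw [h1, h2]
  rw [LinearEquiv.finrank_map_eq, LinearEquiv.finrank_map_eq]
  exact count hT K d

end DimAux

open DimAux

theorem dim : StDIM := by
  classical
  intro n r K _ l hl hli hr d
  have hc : ∀ i, ∃ c : Fin n → K, lf (Fin n) K c = l i := by
    intro i
    have : l i ∈ homogeneousSubmodule (Fin n) K 1 := hl i
    rw [← lf_range] at this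
    exact this
  choose c hc using hc
  have hcl : LinearIndependent K c := by
    apply LinearIndependent.of_comp (lf (Fin n) K)
    have : (lf (Fin n) K) ∘ c = l := funext hc
    rw [this]
    exact hli
  let B := Basis.sumExtend hcl
  have hB : ∀ i : Fin r, B (Sum.inl i) = c i := by
    intro i
    simp only [B, Basis.sumExtend, Basis.reindex_apply, Basis.extend_apply_self, Equiv.symm_symm]
    rfl
  have hfin : Finite (Fin r ⊕ Basis.sumExtendIndex hcl) := Module.Finite.finite_basis B
  have hfT : Finite (Basis.sumExtendIndex hcl) :=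
    Finite.of_injective (Sum.inr : _ → Fin r ⊕ Basis.sumExtendIndex hcl) Sum.inr_injective
  have := Fintype.ofFinite (Basis.sumExtendIndex hcl)
  have hcard : Fintype.card (Basis.sumExtendIndex hcl) = n - r := by
    have h := finrank_eq_card_basis B
    rw [Module.finrank_fin_fun, Fintype.card_sum, Fintype.card_fin] at h
    omega
  let σ := Fin r ⊕ Basis.sumExtendIndex hcl
  let φ : MvPolynomial (Fin r ⊕ Basis.sumExtendIndex hcl) K →ₐ[K] MvPolynomial (Fin n) K :=
    aeval (fun s => lf (Fin n) K (B s))
  let ψ : MvPolynomial (Fin n) K →ₐ[K] MvPolynomial (Fin r ⊕ Basis.sumExtendIndex hcl) K :=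
    aeval (fun j => lf (Fin r ⊕ Basis.sumExtendIndex hcl) K (B.equivFun (Pi.single j 1)))
  have hψ : ∀ v, ψ (lf (Fin n) K v) = lf (Fin r ⊕ Basis.sumExtendIndex hcl) K (B.equivFun v) := by
    have : ψ.toLinearMap ∘ₗ lf (Fin n) K =
        (lf (Fin r ⊕ Basis.sumExtendIndex hcl) K) ∘ₗ (B.equivFun : (Fin n → K) →ₗ[K] _) := by
      apply LinearMap.pi_ext'
      intro j
      ext
      simp only [LinearMap.comp_apply, LinearMap.coe_single, AlgHom.toLinearMap_apply,
        LinearEquiv.coe_coe]
      rw [lf_single, aeval_X]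
    intro v
    exact LinearMap.congr_fun this v
  have hφ : ∀ w, φ (lf (Fin r ⊕ Basis.sumExtendIndex hcl) K w) = lf (Fin n) K (B.equivFun.symm w) := by
    have : φ.toLinearMap ∘ₗ lf (Fin r ⊕ Basis.sumExtendIndex hcl) K =
        (lf (Fin n) K) ∘ₗ (B.equivFun.symm : _ →ₗ[K] (Fin n → K)) := by
      apply LinearMap.pi_ext'
      intro j
      ext
      simp only [LinearMap.comp_apply, LinearMap.coe_single, AlgHom.toLinearMap_apply,
        LinearEquiv.coe_coe]
      rw [lf_single, aeval_X]
      congr 2
      simp [Basis.equivFun_symm_apply]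
    intro v
    exact LinearMap.congr_fun this v
  have h12 : φ.comp ψ = AlgHom.id K _ := by
    apply MvPolynomial.algHom_ext
    intro j
    rw [AlgHom.comp_apply]
    show φ (ψ (X j)) = X j
    rw [← lf_single j, hψ, hφ, LinearEquiv.symm_apply_apply]
  have h21 : ψ.comp φ = AlgHom.id K _ := by
    apply MvPolynomial.algHom_ext
    intro j
    rw [AlgHom.comp_apply]
    show ψ (φ (X j)) = X j
    rw [← lf_single j, hφ, hψ, LinearEquiv.apply_symm_apply]
  let e : MvPolynomial (Fin r ⊕ Basis.sumExtendIndex hcl) K ≃ₐ[K] MvPolynomial (Fin n) K :=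
    AlgEquiv.ofAlgHom φ ψ h12 h21
  have key := span_map e
    (by
      intro d f hf
      have := (show f.IsHomogeneous d from hf).aeval (fun s => lf (Fin n) K (B s)) (fun s => lf_hom _)
      rw [one_mul] at this
      exact this)
    (by
      intro d f hf
      have := (show f.IsHomogeneous d from hf).aeval
        (fun j => lf (Fin r ⊕ Basis.sumExtendIndex hcl) K (B.equivFun (Pi.single j 1))) (fun s => lf_hom _)
      rw [one_mul] at this
      exact this)
    l
    (by
      intro i
      show φ (X (Sum.inl i)) = l i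
      rw [aeval_X, hB, hc])
    (by rw [hcard]; omega) d
  rw [hcard] at key
  exact key

end

end Pool.Agent.K4H40.NS
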